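import Pool.Agent.N594.CT.Stm

/-!
# Project CT (helper594), X32

By helper814.
-/

set_option autoImplicit false

open Finset
open scoped Classical

namespace Pool.Agent.N814.CT.X32

open Pool.Agent.N594.CT

/-- the weights -/
theorem wts {q : ℕ} (hq : q = 6 ∨ 8 ≤ q) : ∃ (a : ℕ) (w : Fin 3 → ℕ),
    4 * a + (w 0 + w 1 + w 2) = 2 * (q - 1) + 1 ∧ (∀ j, 2 * a + w j < q) ∧
      a + (w 0 + w 1 + w 2) < q := by
  rcases Nat.even_or_odd' q with ⟨m, hm | hm⟩
  · refine ⟨m - 1, ![1, 1, 1], ?_, ?_, ?_⟩
    · simp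
      omega
    · intro j
      fin_cases j <;> simp <;> omega
    · simp
      omega
  · refine ⟨m - 1, ![2, 2, 1], ?_, ?_, ?_⟩
    · simp
      omega
    · intro j
      fin_cases j <;> simp <;> omega
    · simp
      omega

theorem key (hW : S_W) {q : ℕ} (hq : q = 6 ∨ 8 ≤ q) {V : Type} {H : Finset V → Prop}
    {K : Fin 4 → V} (hcls : Cls 3 2 q H) (hK : ∀ e : Finset (Fin 4), e.card = 3 → H (e.image K))
    (R : Fin 3 → V) : ∃ J : Finset (Fin 3), J.card = 2 ∧
      Ind 2 (der 2 H K ((1 - 1 / (2 : ℕ)) * (Fintype.card (Fin 4) : ℝ))) R J := by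
  obtain ⟨a, w, h1, h2, h3⟩ := wts hq
  obtain ⟨I, hI, hIw⟩ := hW 3 2 q V H hcls (Fin 4 ⊕ Fin 3) (Sum.elim K R)
    (Sum.elim (fun _ => a) w) (by
      rw [Fintype.sum_sum_type]
      simp only [Sum.elim_inl, Sum.elim_inr, sum_const, card_univ, Fintype.card_fin, smul_eq_mul,
        Fin.sum_univ_three]
      exact h1)
  have h4 : q ≤ I.toLeft.card * a + ∑ j ∈ I.toRight, w j := by
    rw [← Finset.toLeft_disjSum_toRight (u := I), Finset.sum_disjSum] at hIw
    simpa using hIw
  have hL : I.toLeft.card ≤ 2 := by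
    by_contra hlt
    obtain ⟨e, he, hec⟩ := exists_subset_card_eq (show 3 ≤ I.toLeft.card by omega)
    refine hI (e.map Function.Embedding.inl) ?_ (by rw [card_map, hec]) ?_
    · intro x hx
      obtain ⟨i, hi, rfl⟩ := mem_map.1 hx
      exact mem_toLeft.1 (he hi)
    · have := hK e hec
      rw [map_eq_image, image_image]
      exact this
  have hR : 2 ≤ I.toRight.card := by
    by_contra hlt
    have hle : ∑ j ∈ I.toRight, w j + 2 * a < q := by
      rcases Nat.lt_or_ge I.toRight.card 1 with h | h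
      · have h0 : I.toRight = ∅ := card_eq_zero.1 (by omega)
        rw [h0, sum_empty]
        have := h2 0
        omega
      · obtain ⟨j, hj⟩ := card_eq_one.1 (show I.toRight.card = 1 by omega)
        rw [hj, sum_singleton]
        have := h2 j
        omega
    have : I.toLeft.card * a ≤ 2 * a := Nat.mul_le_mul_right _ hL
    omega
  have hL2 : 2 ≤ I.toLeft.card := by
    by_contra hlt
    have h5 : I.toLeft.card * a ≤ 1 * a := Nat.mul_le_mul_right _ (by omega)
    have h6 : ∑ j ∈ I.toRight, w j ≤ w 0 + w 1 + w 2 := by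
      rw [← Fin.sum_univ_three]
      exact sum_le_sum_of_subset (subset_univ _)
    omega
  obtain ⟨J, hJ, hJc⟩ := exists_subset_card_eq hR
  refine ⟨J, hJc, ?_⟩
  intro e he hec
  have heJ : e = J := eq_of_subset_of_card_le he (by rw [hJc, hec])
  subst heJ
  rintro ⟨-, hlt⟩
  have h7 : (univ.filter fun i : Fin 4 => H (insert (K i) (e.image R))) ⊆ univ \ I.toLeft := by
    intro i hi
    rw [mem_sdiff]
    refine ⟨mem_univ _, fun hiL => ?_⟩
    refine hI (insert (Sum.inl i) (e.map Function.Embedding.inr)) ?_ ?_ ?_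
    · intro x hx
      rcases mem_insert.1 hx with rfl | hx
      · exact mem_toLeft.1 hiL
      · obtain ⟨j, hj, rfl⟩ := mem_map.1 hx
        exact mem_toRight.1 (hJ hj)
    · rw [card_insert_of_notMem, card_map, hec]
      intro h
      obtain ⟨j, -, hj⟩ := mem_map.1 h
      exact Sum.inr_ne_inl hj
    · have h8 := (mem_filter.1 hi).2
      rw [image_insert, map_eq_image, image_image]
      exact h8
  have h9 := card_le_card h7
  rw [card_sdiff_of_subset (subset_univ _), card_univ, Fintype.card_fin] at h9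
  have h10 : (univ.filter fun i : Fin 4 => H (insert (K i) (e.image R))).card ≤ 2 := by omega
  have h11 : ((univ.filter fun i : Fin 4 => H (insert (K i) (e.image R))).card : ℝ) ≤ 2 := by
    exact_mod_cast h10
  rw [Fintype.card_fin] at hlt
  norm_num at hlt
  linarith

/-- **X32**. -/
theorem main (hW : S_W) : S_X32 := by
  intro q hq V H K hcls hK R
  exact key hW hq hcls hK R

end Pool.Agent.N814.CT.X32
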